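import Mathlib
set_option autoImplicit false
namespace Pool.Agent.CpCube

open TopologicalSpace Set

section General

variable {X Y : Type} [TopologicalSpace X] [TopologicalSpace Y]

/-- `Hit T C ε y E`: any clopen set which agrees with `C` on the finite tuple `E` has
`T`-value at `y` within `ε` of that of `C`. -/
def Hit (T : Clopens X → Y → ℝ) (C : Clopens X) (ε : ℝ) (y : Y) {n : ℕ} (E : Fin n → X) : Prop :=
  ∀ C' : Clopens X, (∀ i, E i ∈ C' ↔ E i ∈ C) → |T C' y - T C y| ≤ ε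

lemma isClopen_agree_pt (C C' : Clopens X) : IsClopen {x : X | x ∈ C' ↔ x ∈ C} := by
  have h3 : {x : X | x ∈ C' ↔ x ∈ C} = ((C' : Set X) ∩ C) ∪ ((C' : Set X)ᶜ ∩ (C : Set X)ᶜ) := by
    ext x
    by_cases h : x ∈ C' <;> by_cases h' : x ∈ C <;> simp [h, h']
  rw [h3]
  exact (C'.isClopen.inter C.isClopen).union (C'.isClopen.compl.inter C.isClopen.compl)

lemma isClopen_agree (C C' : Clopens X) (n : ℕ) :
    IsClopen {E : Fin n → X | ∀ i, (E i ∈ C' ↔ E i ∈ C)} := by
  have h1 : {E : Fin n → X | ∀ i, (E i ∈ C' ↔ E i ∈ C)} =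
      ⋂ i, {E : Fin n → X | (E i ∈ C' ↔ E i ∈ C)} := by
    ext E; simp
  rw [h1]
  refine isClopen_iInter_of_finite fun i => ?_
  exact (isClopen_agree_pt C C').preimage (continuous_apply i)

lemma isClosed_hit (T : Clopens X → Y → ℝ) (hT : ∀ C, Continuous (T C))
    (C : Clopens X) (ε : ℝ) (n : ℕ) :
    IsClosed {p : Y × (Fin n → X) | Hit T C ε p.1 p.2} := by
  have h1 : {p : Y × (Fin n → X) | Hit T C ε p.1 p.2} =
      ⋂ C' : Clopens X, {p : Y × (Fin n → X) | (∀ i, p.2 i ∈ C' ↔ p.2 i ∈ C) →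
        |T C' p.1 - T C p.1| ≤ ε} := by
    ext p; simp [Hit]
  rw [h1]
  refine isClosed_iInter fun C' => ?_
  refine isClosed_imp ?_ ?_
  · exact ((isClopen_agree C C' n).preimage continuous_snd).isOpen
  · exact isClosed_le ((((hT C').comp continuous_fst).sub ((hT C).comp continuous_fst)).abs)
      continuous_const

lemma isClosed_hit_fiber (T : Clopens X → Y → ℝ) (hT : ∀ C, Continuous (T C))
    (C : Clopens X) (ε : ℝ) (n : ℕ) (y : Y) :
    IsClosed {E : Fin n → X | Hit T C ε y E} :=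
  (isClosed_hit T hT C ε n).preimage (Continuous.prodMk_right y)

lemma isClosed_exists_hit [CompactSpace X] (T : Clopens X → Y → ℝ) (hT : ∀ C, Continuous (T C))
    (C : Clopens X) (ε : ℝ) {n : ℕ} {K : Set (Fin n → X)} (hK : IsClosed K) :
    IsClosed {y | ∃ E ∈ K, Hit T C ε y E} := by
  have hcl : IsClosed ({p : Y × (Fin n → X) | p.2 ∈ K} ∩
      {p : Y × (Fin n → X) | Hit T C ε p.1 p.2}) :=
    (hK.preimage continuous_snd).inter (isClosed_hit T hT C ε n)
  have h2 := isClosedMap_fst_of_compactSpace (X := Y) (Y := Fin n → X) _ hcl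
  convert h2 using 1
  ext y
  constructor
  · rintro ⟨E, hE, hH⟩
    exact ⟨(y, E), ⟨hE, hH⟩, rfl⟩
  · rintro ⟨⟨y', E⟩, ⟨hE, hH⟩, rfl⟩
    exact ⟨E, hE, hH⟩

/-- Baire category: on a smaller nonempty open set the least size of a hitting tuple is constant. -/
lemma exists_const [CompactSpace X] [BaireSpace Y] (T : Clopens X → Y → ℝ)
    (hT : ∀ C, Continuous (T C))
    (C : Clopens X) {ε : ℝ} (hHit : ∀ y, ∃ n, ∃ E : Fin n → X, Hit T C ε y E)
    {V : Set Y} (hV : IsOpen V) (hVn : V.Nonempty) :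
    ∃ n, ∃ V' ⊆ V, IsOpen V' ∧ V'.Nonempty ∧ (∀ y ∈ V', ∃ E : Fin n → X, Hit T C ε y E) ∧
      (∀ m, n = m + 1 → ∀ y ∈ V', ∀ E : Fin m → X, ¬ Hit T C ε y E) := by
  classical
  set Z : ℕ → Set Y := fun n => {y | ∃ E : Fin n → X, Hit T C ε y E} with hZdef
  have hZc : ∀ n, IsClosed (Z n) := by
    intro n
    have := isClosed_exists_hit T hT C ε (n := n) (K := univ) isClosed_univ
    simpa [hZdef] using this
  have hZu : (⋃ n, Z n) = univ := by
    refine eq_univ_of_forall fun y => ?_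
    obtain ⟨n, E, hE⟩ := hHit y
    exact mem_iUnion.2 ⟨n, E, hE⟩
  have hd := dense_iUnion_interior_of_closed hZc hZu
  obtain ⟨y, hyV, hyU⟩ := hd.inter_open_nonempty V hV hVn
  obtain ⟨n0, hn0⟩ := mem_iUnion.1 hyU
  have hex : ∃ n, (V ∩ interior (Z n)).Nonempty := ⟨n0, y, hyV, hn0⟩
  set n := Nat.find hex with hn
  have hne : (V ∩ interior (Z n)).Nonempty := Nat.find_spec hex
  rcases Nat.eq_zero_or_pos n with h0 | hpos
  · refine ⟨n, V ∩ interior (Z n), inter_subset_left, hV.inter isOpen_interior, hne, ?_, ?_⟩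
    · intro y hy
      have h : y ∈ Z n := interior_subset hy.2
      exact h
    · intro m hm
      omega
  · obtain ⟨m, hm⟩ : ∃ m, n = m + 1 := ⟨n - 1, by omega⟩
    have hmin : ¬ (V ∩ interior (Z m)).Nonempty := Nat.find_min hex (by omega)
    refine ⟨n, (V ∩ interior (Z n)) \ Z m, sdiff_subset.trans inter_subset_left,
      (hV.inter isOpen_interior).sdiff (hZc m), ?_, ?_, ?_⟩
    · by_contra hemp
      apply hmin
      have hsub : V ∩ interior (Z n) ⊆ Z m := by
        intro z hz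
        by_contra hzm
        exact hemp ⟨z, hz, hzm⟩
      obtain ⟨z, hz⟩ := hne
      refine ⟨z, hz.1, ?_⟩
      exact (hV.inter isOpen_interior).subset_interior_iff.2 hsub hz
    · intro y hy
      have h : y ∈ Z n := interior_subset hy.1.2
      exact h
    · intro m' hm' y hy E hE
      have : m' = m := by omega
      subst this
      exact hy.2 ⟨E, hE⟩

lemma hit_injective (T : Clopens X → Y → ℝ) (C : Clopens X) (ε : ℝ) (y : Y) {n : ℕ}
    (hmin : ∀ m, n = m + 1 → ∀ E : Fin m → X, ¬ Hit T C ε y E)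
    (E : Fin n → X) (hE : Hit T C ε y E) : Function.Injective E := by
  intro a b hab
  by_contra hne
  cases n with
  | zero => exact a.elim0
  | succ m =>
    refine hmin m rfl (fun j => E (a.succAbove j)) ?_
    intro C' hC'
    apply hE
    intro i
    rcases eq_or_ne i a with rfl | hia
    · obtain ⟨j, hj⟩ := Fin.exists_succAbove_eq (x := b) (y := i) (Ne.symm hne)
      have := hC' j
      simp only [hj] at this
      rw [hab]
      exact this
    · obtain ⟨j, hj⟩ := Fin.exists_succAbove_eq (x := i) (y := a) hia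
      have := hC' j
      simp only [hj] at this
      exact this

/-- clopen interpolation on a finite set -/
lemma exists_clopen_prescribed [CompactSpace X] [T2Space X] [TotallyDisconnectedSpace X]
    (F : Set X) (hF : F.Finite) (Q : Set X) :
    ∃ C : Clopens X, ∀ x ∈ F, (x ∈ C ↔ x ∈ Q) := by
  have h1 : IsClosed (F ∩ Q) := (hF.subset inter_subset_left).isClosed
  have h2 : IsOpen (F \ Q)ᶜ := (hF.subset sdiff_subset).isClosed.isOpen_compl
  obtain ⟨C, hC, h3, h4⟩ := exists_clopen_of_closed_subset_open h1 h2 (by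
    intro x hx hx'
    exact hx'.2 hx.2)
  refine ⟨⟨C, hC⟩, fun x hx => ⟨fun hxC => ?_, fun hxQ => h3 ⟨hx, hxQ⟩⟩⟩
  by_contra hxQ
  exact h4 hxC ⟨hx, hxQ⟩

lemma exists_clopen_glue [CompactSpace X] [T2Space X] [TotallyDisconnectedSpace X]
    {n m : ℕ} (E : Fin n → X) (E' : Fin m → X) (C C' : Clopens X)
    (h : ∀ i j, E i = E' j → (E i ∈ C ↔ E i ∈ C')) :
    ∃ D : Clopens X, (∀ i, E i ∈ D ↔ E i ∈ C) ∧ (∀ j, E' j ∈ D ↔ E' j ∈ C') := by
  obtain ⟨D, hD⟩ := exists_clopen_prescribed (range E ∪ range E')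
    ((finite_range E).union (finite_range E'))
    ({x | x ∈ range E ∧ x ∈ C} ∪ {x | x ∈ range E' ∧ x ∈ C'})
  refine ⟨D, fun i => ?_, fun j => ?_⟩
  · rw [hD (E i) (Or.inl ⟨i, rfl⟩)]
    constructor
    · rintro (⟨_, h1⟩ | ⟨⟨j, hj⟩, h2⟩)
      · exact h1
      · exact (h i j hj.symm).2 h2
    · intro h1
      exact Or.inl ⟨⟨i, rfl⟩, h1⟩
  · rw [hD (E' j) (Or.inr ⟨j, rfl⟩)]
    constructor
    · rintro (⟨⟨i, hi⟩, h2⟩ | ⟨_, h1⟩)
      · rw [← hi] at h2 ⊢
        exact (h i j hi).1 h2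
      · exact h1
    · intro h1
      exact Or.inr ⟨⟨j, rfl⟩, h1⟩

/-- key step: a coordinate which is essential for `C` belongs to every hitting tuple of `C'`. -/
lemma star [CompactSpace X] [T2Space X] [TotallyDisconnectedSpace X]
    (T : Clopens X → Y → ℝ) (C C' : Clopens X) (ε ε₂ : ℝ) (y : Y)
    (hlt : ε + ε₂ < |T C' y - T C y|) {n m : ℕ} (E : Fin (n + 1) → X) (i : Fin (n + 1))
    (hagree : ∀ j, E (i.succAbove j) ∈ C' ↔ E (i.succAbove j) ∈ C)
    (hE : Hit T C ε y E) (E' : Fin m → X) (hE' : Hit T C' ε₂ y E') :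
    ∃ a, E' a = E i := by
  by_contra hno
  push Not at hno
  obtain ⟨D, hD1, hD2⟩ := exists_clopen_glue E E' C C' (by
    intro a b hab
    rcases eq_or_ne a i with rfl | hai
    · exact absurd hab.symm (hno b)
    · obtain ⟨j, hj⟩ := Fin.exists_succAbove_eq (x := a) (y := i) hai
      have := hagree j
      rw [hj] at this
      exact this.symm)
  have h1 := hE D hD1
  have h2 := hE' D hD2
  have h3 : |T C' y - T C y| ≤ |T D y - T C y| + |T D y - T C' y| := by
    rw [abs_sub_comm (T D y) (T C' y)]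
    have := abs_sub_le (T C' y) (T D y) (T C y)
    linarith
  linarith

/-- `Psep P E`: the finite family `P` of clopen sets separates the entries of `E`. -/
def Psep (P : Finset (Clopens X)) {n : ℕ} (E : Fin n → X) : Prop :=
  ∀ a b, (∀ Q ∈ P, E a ∈ Q ↔ E b ∈ Q) → a = b

lemma isClopen_mem (Q : Clopens X) {n : ℕ} (a : Fin n) : IsClopen {E : Fin n → X | E a ∈ Q} :=
  Q.isClopen.preimage (continuous_apply a)

lemma isOpen_psep (P : Finset (Clopens X)) (n : ℕ) : IsOpen {E : Fin n → X | Psep P E} := by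
  have h1 : {E : Fin n → X | Psep P E} =
      ⋂ a : Fin n, ⋂ b : Fin n, {E : Fin n → X | (∀ Q ∈ P, E a ∈ Q ↔ E b ∈ Q) → a = b} := by
    ext E; simp [Psep]
  rw [h1]
  refine isOpen_iInter_of_finite fun a => isOpen_iInter_of_finite fun b => ?_
  by_cases hab : a = b
  · simp [hab]
  · have h2 : {E : Fin n → X | (∀ Q ∈ P, E a ∈ Q ↔ E b ∈ Q) → a = b} =
        ⋃ Q ∈ P, {E : Fin n → X | ¬ (E a ∈ Q ↔ E b ∈ Q)} := by
      ext E; simp [hab]
    rw [h2]
    refine isOpen_biUnion fun Q _ => ?_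
    have h3 : {E : Fin n → X | ¬ (E a ∈ Q ↔ E b ∈ Q)} =
        ({E : Fin n → X | E a ∈ Q} ∩ {E : Fin n → X | E b ∈ Q}ᶜ) ∪
        ({E : Fin n → X | E a ∈ Q}ᶜ ∩ {E : Fin n → X | E b ∈ Q}) := by
      ext E
      by_cases h : E a ∈ Q <;> by_cases h' : E b ∈ Q <;> simp [h, h']
    rw [h3]
    exact (((isClopen_mem Q a).isOpen).inter (isClopen_mem Q b).compl.isOpen).union
      ((isClopen_mem Q a).compl.isOpen.inter (isClopen_mem Q b).isOpen)

lemma exists_psep_of_injective [CompactSpace X] [T2Space X] [TotallyDisconnectedSpace X]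
    {n : ℕ} (E : Fin n → X) (hE : Function.Injective E) : ∃ P : Finset (Clopens X), Psep P E := by
  classical
  have h1 : ∀ a : Fin n, ∃ C : Clopens X, ∀ b, (E b ∈ C ↔ b = a) := by
    intro a
    obtain ⟨C, hC⟩ := exists_clopen_prescribed (range E) (finite_range E) {E a}
    refine ⟨C, fun b => ?_⟩
    rw [hC (E b) ⟨b, rfl⟩]
    simp [hE.eq_iff]
  choose C hC using h1
  refine ⟨Finset.univ.image C, fun a b hab => ?_⟩
  have := hab (C a) (Finset.mem_image_of_mem _ (Finset.mem_univ _))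
  rw [hC, hC] at this
  exact (this.1 rfl).symm

/-- near a point where all minimal hitting tuples are injective, all hitting tuples are
separated by a fixed finite family of clopen sets. -/
lemma exists_psep_nhds [CompactSpace X] [T2Space X] [TotallyDisconnectedSpace X]
    (T : Clopens X → Y → ℝ) (hT : ∀ C, Continuous (T C)) (C : Clopens X) (ε : ℝ) (y₀ : Y) {n : ℕ}
    (hinj : ∀ E : Fin n → X, Hit T C ε y₀ E → Function.Injective E) :
    ∃ P : Finset (Clopens X), ∃ W : Set Y, IsOpen W ∧ y₀ ∈ W ∧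
      ∀ y ∈ W, ∀ E : Fin n → X, Hit T C ε y E → Psep P E := by
  classical
  have hK : IsCompact {E : Fin n → X | Hit T C ε y₀ E} :=
    (isClosed_hit_fiber T hT C ε n y₀).isCompact
  obtain ⟨P, hP⟩ := hK.elim_directed_cover (fun P : Finset (Clopens X) => {E : Fin n → X | Psep P E})
    (fun P => isOpen_psep P n) (by
      intro E hE
      obtain ⟨P, hP⟩ := exists_psep_of_injective E (hinj E hE)
      exact mem_iUnion.2 ⟨P, hP⟩) (by
      intro P P'
      refine ⟨P ∪ P', ?_, ?_⟩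
      · intro E hE a b hab
        exact hE a b fun Q hQ => hab Q (Finset.mem_union_left _ hQ)
      · intro E hE a b hab
        exact hE a b fun Q hQ => hab Q (Finset.mem_union_right _ hQ))
  refine ⟨P, {y | ∃ E ∈ {E : Fin n → X | Psep P E}ᶜ, Hit T C ε y E}ᶜ,
    (isClosed_exists_hit T hT C ε (isOpen_psep P n).isClosed_compl).isOpen_compl, ?_, ?_⟩
  · rintro ⟨E, hE, hH⟩
    exact hE (hP hH)
  · intro y hy E hE
    by_contra hsep
    exact hy ⟨E, hsep, hE⟩

lemma exists_pos_lt {α : Type} (G : Finset α) (f : α → ℝ) (hf : ∀ a ∈ G, 0 < f a) :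
    ∃ δ > 0, ∀ a ∈ G, δ < f a := by
  classical
  induction G using Finset.induction_on with
  | empty => exact ⟨1, one_pos, by simp⟩
  | insert a G ha ih =>
    obtain ⟨δ, hδ, hG⟩ := ih fun b hb => hf b (Finset.mem_insert_of_mem hb)
    have h1 := hf a (Finset.mem_insert_self _ _)
    refine ⟨min δ (f a / 2), lt_min hδ (half_pos h1), fun b hb => ?_⟩
    rcases Finset.mem_insert.1 hb with rfl | hb
    · exact lt_of_le_of_lt (min_le_right _ _) (half_lt_self h1)
    · exact lt_of_le_of_lt (min_le_left _ _) (hG b hb)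

lemma exists_const_finset [CompactSpace X] [BaireSpace Y] (T : Clopens X → Y → ℝ)
    (hT : ∀ C, Continuous (T C)) {ε : ℝ}
    (hHit : ∀ C y, ∃ n, ∃ E : Fin n → X, Hit T C ε y E) (G : Finset (Clopens X))
    {V : Set Y} (hV : IsOpen V) (hVn : V.Nonempty) :
    ∃ V' ⊆ V, IsOpen V' ∧ V'.Nonempty ∧ ∀ C ∈ G, ∃ n,
      (∀ y ∈ V', ∃ E : Fin n → X, Hit T C ε y E) ∧
      (∀ m, n = m + 1 → ∀ y ∈ V', ∀ E : Fin m → X, ¬ Hit T C ε y E) := by
  classical
  induction G using Finset.induction_on with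
  | empty => exact ⟨V, Subset.rfl, hV, hVn, by simp⟩
  | insert C G hC ih =>
    obtain ⟨V', hV'V, hV'o, hV'n, hG⟩ := ih
    obtain ⟨n, V'', hV'', ho, hn, h1, h2⟩ := exists_const T hT C (hHit C) hV'o hV'n
    refine ⟨V'', hV''.trans hV'V, ho, hn, fun D hD => ?_⟩
    rcases Finset.mem_insert.1 hD with rfl | hD
    · exact ⟨n, h1, h2⟩
    · obtain ⟨k, hk1, hk2⟩ := hG D hD
      exact ⟨k, fun y hy => hk1 y (hV'' hy), fun m hm y hy => hk2 m hm y (hV'' hy)⟩

/-- Local triviality: near a dense open set of points, hitting tuples can be chosen constant. -/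
theorem local_triviality [CompactSpace X] [T2Space X] [TotallyDisconnectedSpace X] [BaireSpace Y]
    (hconn : ∀ V : Set Y, IsOpen V → V.Nonempty →
      ∃ U ⊆ V, IsOpen U ∧ U.Nonempty ∧ IsPreconnected U)
    (T : Clopens X → Y → ℝ) (hT : ∀ C, Continuous (T C))
    (hHit : ∀ C (ε : ℝ), 0 < ε → ∀ y, ∃ n, ∃ E : Fin n → X, Hit T C ε y E)
    (C : Clopens X) {ε : ℝ} (hε : 0 < ε) {V : Set Y} (hV : IsOpen V) (hVn : V.Nonempty) :
    ∃ U ⊆ V, IsOpen U ∧ U.Nonempty ∧ ∃ n, ∃ E : Fin n → X, ∀ y ∈ U, Hit T C ε y E := by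
  classical
  obtain ⟨n, V₁, hV₁V, hV₁o, hV₁n, hex, hmin⟩ := exists_const T hT C (hHit C ε hε) hV hVn
  cases n with
  | zero =>
    refine ⟨V₁, hV₁V, hV₁o, hV₁n, 0, Fin.elim0, fun y hy => ?_⟩
    obtain ⟨E, hE⟩ := hex y hy
    have : E = Fin.elim0 := funext fun i => i.elim0
    rw [← this]; exact hE
  | succ m =>
    obtain ⟨y₁, hy₁⟩ := hV₁n
    -- finite family of witnesses
    obtain ⟨G, hG1, hG2⟩ : ∃ G : Finset (Clopens X),
        (∀ E : Fin m → X, ∃ C' ∈ G, ∀ i, (E i ∈ C' ↔ E i ∈ C)) ∧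
        ∀ C' ∈ G, ε < |T C' y₁ - T C y₁| := by
      have h1 : ∀ E : Fin m → X, ∃ C' : Clopens X, (∀ i, (E i ∈ C' ↔ E i ∈ C)) ∧
          ε < |T C' y₁ - T C y₁| := by
        intro E
        have := hmin m rfl y₁ hy₁ E
        unfold Hit at this
        push Not at this
        exact this
      choose D hD1 hD2 using h1
      obtain ⟨t, ht⟩ := CompactSpace.elim_nhds_subcover
        (fun E : Fin m → X => {E' : Fin m → X | ∀ i, (E' i ∈ D E ↔ E' i ∈ C)})
        (fun E => (isClopen_agree C (D E) m).isOpen.mem_nhds (hD1 E))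
      refine ⟨t.image D, fun E => ?_, fun C' hC' => ?_⟩
      · have : E ∈ (⊤ : Set (Fin m → X)) := trivial
        rw [← ht] at this
        simp only [mem_iUnion, mem_ofPred_eq] at this
        obtain ⟨E₀, hE₀, h⟩ := this
        exact ⟨D E₀, Finset.mem_image_of_mem _ hE₀, h⟩
      · obtain ⟨E₀, _, rfl⟩ := Finset.mem_image.1 hC'
        exact hD2 E₀
    obtain ⟨ε₂, hε₂, hε₂G⟩ := exists_pos_lt G (fun C' => |T C' y₁ - T C y₁| - ε)
      (fun C' hC' => sub_pos.2 (hG2 C' hC'))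
    -- shrink
    set V₂ : Set Y := V₁ ∩ ⋂ C' ∈ G, {y | ε + ε₂ < |T C' y - T C y|} with hV₂
    have hV₂o : IsOpen V₂ := by
      refine hV₁o.inter (isOpen_biInter_finset fun C' _ => ?_)
      exact isOpen_lt continuous_const (((hT C').sub (hT C)).abs)
    have hV₂n : V₂.Nonempty := by
      refine ⟨y₁, hy₁, ?_⟩
      simp only [mem_iInter, mem_ofPred_eq]
      intro C' hC'
      have := hε₂G C' hC'
      linarith
    obtain ⟨V₃, hV₃V₂, hV₃o, ⟨ystar, hystar⟩, hcG⟩ :=
      exists_const_finset T hT (fun C' y => hHit C' ε₂ hε₂ y) G hV₂o hV₂n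
    choose! N hN1 hN2 using hcG
    have hsep : ∀ C' ∈ G, ∃ P : Finset (Clopens X), ∃ W : Set Y, IsOpen W ∧ ystar ∈ W ∧
        ∀ y ∈ W, ∀ E : Fin (N C') → X, Hit T C' ε₂ y E → Psep P E := by
      intro C' hC'
      apply exists_psep_nhds T hT C' ε₂ ystar
      intro E hE
      exact hit_injective T C' ε₂ ystar (fun m hm => hN2 C' hC' m hm ystar hystar) E hE
    choose! P W hWo hyW hPW using hsep
    set W₀ : Set Y := V₃ ∩ ⋂ C' ∈ G, W C' with hW₀
    have hW₀o : IsOpen W₀ := hV₃o.inter (isOpen_biInter_finset fun C' hC' => hWo C' hC')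
    have hW₀n : ystar ∈ W₀ := by
      refine ⟨hystar, ?_⟩
      simp only [mem_iInter]
      exact fun C' hC' => hyW C' hC'
    set PP : Finset (Clopens X) := (G.biUnion P) ∪ G ∪ {C} with hPP
    -- uniqueness
    have huniq : ∀ y ∈ W₀, ∀ E E' : Fin (m + 1) → X, Hit T C ε y E → Hit T C ε y E' →
        (∀ i, ∀ Q ∈ PP, (E i ∈ Q ↔ E' i ∈ Q)) → E = E' := by
      intro y hy E E' hE hE' htype
      funext i
      obtain ⟨C', hC'G, hC'⟩ := hG1 (fun j => E (i.succAbove j))
      have hyV₃ : y ∈ V₃ := hy.1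
      have hlt : ε + ε₂ < |T C' y - T C y| := by
        have := (hV₃V₂ hyV₃).2
        simp only [mem_iInter, mem_ofPred_eq] at this
        exact this C' hC'G
      obtain ⟨F, hF⟩ := hN1 C' hC'G y hyV₃
      obtain ⟨a, ha⟩ := star T C C' ε ε₂ y hlt E i hC' hE F hF
      have hC'2 : ∀ j, E' (i.succAbove j) ∈ C' ↔ E' (i.succAbove j) ∈ C := by
        intro j
        have h1 := htype (i.succAbove j) C' (by simp [hPP, hC'G])
        have h2 := htype (i.succAbove j) C (by simp [hPP])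
        rw [← h1, ← h2]
        exact hC' j
      obtain ⟨b, hb⟩ := star T C C' ε ε₂ y hlt E' i hC'2 hE' F hF
      have hyW' : y ∈ W C' := by
        have := hy.2
        simp only [mem_iInter] at this
        exact this C' hC'G
      have hab : a = b := by
        apply hPW C' hC'G y hyW' F hF
        intro Q hQ
        rw [ha, hb]
        exact htype i Q (by
          simp only [hPP, Finset.mem_union, Finset.mem_biUnion]
          exact Or.inl (Or.inl ⟨C', hC'G, hQ⟩))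
      rw [← ha, ← hb, hab]
    -- finitely many types
    let τT := Fin (m + 1) → {Q // Q ∈ PP} → Bool
    let K : τT → Set (Fin (m + 1) → X) := fun τ => {E | ∀ i, ∀ Q : {Q // Q ∈ PP}, (E i ∈ Q.1 ↔ τ i Q = true)}
    have hK : ∀ τ, IsClopen (K τ) := by
      intro τ
      have : K τ = ⋂ i, ⋂ Q : {Q // Q ∈ PP}, {E : Fin (m + 1) → X | (E i ∈ Q.1 ↔ τ i Q = true)} := by
        ext E; simp [K]
      rw [this]
      refine isClopen_iInter_of_finite fun i => isClopen_iInter_of_finite fun Q => ?_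
      by_cases hτ : τ i Q = true
      · simpa [hτ] using isClopen_mem Q.1 i
      · have h1 : {E : Fin (m + 1) → X | (E i ∈ Q.1 ↔ τ i Q = true)} =
            {E : Fin (m + 1) → X | E i ∈ Q.1}ᶜ := by
          ext E; simp [hτ]
        rw [h1]
        exact (isClopen_mem Q.1 i).compl
    let Z : τT → Set Y := fun τ => {y | ∃ E ∈ K τ, Hit T C ε y E}
    have hZc : ∀ τ, IsClosed (Z τ) := fun τ => isClosed_exists_hit T hT C ε (hK τ).isClosed
    let f : Option τT → Set Y := fun o => Option.elim o W₀ᶜ Z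
    have hfc : ∀ o, IsClosed (f o) := by
      intro o
      cases o with
      | none => exact hW₀o.isClosed_compl
      | some τ => exact hZc τ
    have hfu : (⋃ o, f o) = univ := by
      refine eq_univ_of_forall fun y => ?_
      by_cases hy : y ∈ W₀
      · have hyV₁ : y ∈ V₁ := (hV₃V₂ hy.1).1
        obtain ⟨E, hE⟩ := hex y hyV₁
        refine mem_iUnion.2 ⟨some (fun i Q => decide (E i ∈ Q.1)), ?_⟩
        refine ⟨E, ?_, hE⟩
        intro i Q
        simp
      · exact mem_iUnion.2 ⟨none, hy⟩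
    have hd := dense_iUnion_interior_of_closed hfc hfu
    obtain ⟨y₂, hy₂W, hy₂⟩ := hd.inter_open_nonempty W₀ hW₀o ⟨ystar, hW₀n⟩
    obtain ⟨o, ho⟩ := mem_iUnion.1 hy₂
    obtain ⟨τ, hτ⟩ : ∃ τ, (W₀ ∩ interior (Z τ)).Nonempty := by
      cases o with
      | none => exact absurd hy₂W (interior_subset ho)
      | some τ => exact ⟨τ, y₂, hy₂W, ho⟩
    obtain ⟨U, hUsub, hUo, ⟨y₀, hy₀⟩, hUc⟩ := hconn _ (hW₀o.inter isOpen_interior) hτ
    have hUW : U ⊆ W₀ := hUsub.trans inter_subset_left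
    have hUZ : ∀ y ∈ U, ∃ E ∈ K τ, Hit T C ε y E := by
      intro y hy
      have : y ∈ Z τ := interior_subset (hUsub hy).2
      exact this
    have htyp : ∀ E ∈ K τ, ∀ E' ∈ K τ, ∀ i, ∀ Q ∈ PP, (E i ∈ Q ↔ E' i ∈ Q) := by
      intro E hE E' hE' i Q hQ
      rw [hE i ⟨Q, hQ⟩, hE' i ⟨Q, hQ⟩]
    obtain ⟨E₀, hE₀K, hE₀⟩ := hUZ y₀ hy₀
    refine ⟨U, (hUW.trans inter_subset_left).trans (hV₃V₂.trans (inter_subset_left.trans hV₁V)),
      hUo, ⟨y₀, hy₀⟩, m + 1, E₀, fun y hy => ?_⟩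
    obtain ⟨E, hEK, hE⟩ := hUZ y hy
    have hEE : E = E₀ := by
      funext i
      by_contra hne
      obtain ⟨Q, hQ⟩ := exists_clopen_prescribed ({E i, E₀ i} : Set X) (by simp) {E₀ i}
      have hQ0 : E₀ i ∈ Q := (hQ (E₀ i) (by simp)).2 rfl
      have hQ1 : E i ∉ Q := fun h => hne ((hQ (E i) (by simp)).1 h)
      have hc1 : IsClosed {y | ∃ E ∈ K τ ∩ {E | E i ∈ Q}, Hit T C ε y E} :=
        isClosed_exists_hit T hT C ε ((hK τ).isClosed.inter (isClopen_mem Q i).isClosed)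
      have hc2 : IsClosed {y | ∃ E ∈ K τ ∩ {E | E i ∈ Q}ᶜ, Hit T C ε y E} :=
        isClosed_exists_hit T hT C ε ((hK τ).isClosed.inter (isClopen_mem Q i).compl.isClosed)
      have hcov : U ⊆ {y | ∃ E ∈ K τ ∩ {E | E i ∈ Q}, Hit T C ε y E} ∪
          {y | ∃ E ∈ K τ ∩ {E | E i ∈ Q}ᶜ, Hit T C ε y E} := by
        intro z hz
        obtain ⟨F, hF, hF'⟩ := hUZ z hz
        by_cases h : F i ∈ Q
        · exact Or.inl ⟨F, ⟨hF, h⟩, hF'⟩
        · exact Or.inr ⟨F, ⟨hF, h⟩, hF'⟩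
      have hdisj : U ∩ ({y | ∃ E ∈ K τ ∩ {E | E i ∈ Q}, Hit T C ε y E} ∩
          {y | ∃ E ∈ K τ ∩ {E | E i ∈ Q}ᶜ, Hit T C ε y E}) = ∅ := by
        refine eq_empty_of_forall_notMem ?_
        rintro z ⟨hz, ⟨F, ⟨hFK, hFQ⟩, hF⟩, ⟨F', ⟨hFK', hFQ'⟩, hF'⟩⟩
        have := huniq z (hUW hz) F F' hF hF' (htyp F hFK F' hFK')
        subst this
        exact hFQ' hFQ
      rcases isPreconnected_iff_subset_of_disjoint_closed.1 hUc _ _ hc1 hc2 hcov hdisj with h | h
      · obtain ⟨F, ⟨hFK, hFQ⟩, hF⟩ := h hy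
        have := huniq y (hUW hy) F E hF hE (htyp F hFK E hEK)
        subst this
        exact hQ1 hFQ
      · obtain ⟨F, ⟨hFK, hFQ⟩, hF⟩ := h hy₀
        have := huniq y₀ (hUW hy₀) F E₀ hF hE₀ (htyp F hFK E₀ hE₀K)
        subst this
        exact hFQ hQ0
    rw [← hEE]
    exact hE

/-- one finite step of the fusion, for finitely many clopen sets -/
lemma fusion_step_finset [CompactSpace X] [T2Space X] [TotallyDisconnectedSpace X] [BaireSpace Y]
    (hconn : ∀ V : Set Y, IsOpen V → V.Nonempty →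
      ∃ U ⊆ V, IsOpen U ∧ U.Nonempty ∧ IsPreconnected U)
    (T : Clopens X → Y → ℝ) (hT : ∀ C, Continuous (T C))
    (hHit : ∀ C (ε : ℝ), 0 < ε → ∀ y, ∃ n, ∃ E : Fin n → X, Hit T C ε y E)
    (G : Finset (Clopens X)) {ε : ℝ} (hε : 0 < ε) {V : Set Y} (hV : IsOpen V) (hVn : V.Nonempty) :
    ∃ U ⊆ V, IsOpen U ∧ U.Nonempty ∧ ∃ P : Set X, P.Finite ∧ ∀ C ∈ G,
      (∃ n, ∃ E : Fin n → X, (∀ i, E i ∈ P) ∧ ∀ y ∈ U, Hit T C ε y E) ∧
      ∀ y ∈ U, ∀ y' ∈ U, |T C y - T C y'| ≤ ε := by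
  classical
  induction G using Finset.induction_on with
  | empty => exact ⟨V, Subset.rfl, hV, hVn, ∅, finite_empty, by simp⟩
  | insert C G hC ih =>
    obtain ⟨U, hUV, hUo, hUn, P, hP, hG⟩ := ih
    obtain ⟨U', hU'U, hU'o, ⟨y₀, hy₀⟩, n, E, hE⟩ := local_triviality hconn T hT hHit C hε hUo hUn
    refine ⟨U' ∩ {y | |T C y - T C y₀| < ε / 2}, inter_subset_left.trans (hU'U.trans hUV),
      hU'o.inter (isOpen_lt (((hT C).sub continuous_const).abs) continuous_const),
      ⟨y₀, hy₀, by simp [hε]⟩, P ∪ range E, hP.union (finite_range E), fun D hD => ?_⟩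
    rcases Finset.mem_insert.1 hD with rfl | hD
    · refine ⟨⟨n, E, fun i => Or.inr ⟨i, rfl⟩, fun y hy => hE y hy.1⟩, ?_⟩
      rintro y ⟨_, hy⟩ y' ⟨_, hy'⟩
      have h1 : |T D y - T D y₀| < ε / 2 := hy
      have h2 : |T D y' - T D y₀| < ε / 2 := hy'
      have h3 := abs_sub_le (T D y) (T D y₀) (T D y')
      rw [abs_sub_comm (T D y₀) (T D y')] at h3
      linarith
    · obtain ⟨⟨k, F, hF1, hF2⟩, h2⟩ := hG D hD
      exact ⟨⟨k, F, fun i => Or.inl (hF1 i), fun y hy => hF2 y (hU'U hy.1)⟩,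
        fun y hy y' hy' => h2 y (hU'U hy.1) y' (hU'U hy'.1)⟩

/-- one step of the fusion -/
lemma fusion_step [CompactSpace X] [T2Space X] [TotallyDisconnectedSpace X] [BaireSpace Y]
    [RegularSpace Y]
    (hconn : ∀ V : Set Y, IsOpen V → V.Nonempty →
      ∃ U ⊆ V, IsOpen U ∧ U.Nonempty ∧ IsPreconnected U)
    (T : Clopens X → Y → ℝ) (hT : ∀ C, Continuous (T C))
    (hHit : ∀ C (ε : ℝ), 0 < ε → ∀ y, ∃ n, ∃ E : Fin n → X, Hit T C ε y E)
    {ε : ℝ} (hε : 0 < ε) {V : Set Y} (hV : IsOpen V) (hVn : V.Nonempty)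
    {P : Set X} (hP : P.Finite) :
    ∃ U, IsOpen U ∧ U.Nonempty ∧ closure U ⊆ V ∧ ∃ P' : Set X, P'.Finite ∧ P ⊆ P' ∧
      ∀ Q : Set X, ∃ C : Clopens X, (∀ p ∈ P, (p ∈ C ↔ p ∈ Q)) ∧
      (∃ n, ∃ E : Fin n → X, (∀ i, E i ∈ P') ∧ ∀ y ∈ U, Hit T C ε y E) ∧
      ∀ y ∈ U, ∀ y' ∈ U, |T C y - T C y'| ≤ ε := by
  classical
  choose D hD using fun Q : Set X => exists_clopen_prescribed P hP Q
  obtain ⟨U, hUV, hUo, ⟨y₀, hy₀⟩, P', hP', hG⟩ := fusion_step_finset hconn T hT hHit
    (hP.toFinset.powerset.image fun S : Finset X => D (S : Set X)) hε hV hVn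
  obtain ⟨W, hWmem, hWc, hWU⟩ := exists_mem_nhds_isClosed_subset (hUo.mem_nhds hy₀)
  have hiW : interior W ⊆ U := interior_subset.trans hWU
  refine ⟨interior W, isOpen_interior, ⟨y₀, mem_interior_iff_mem_nhds.2 hWmem⟩,
    (closure_minimal interior_subset hWc).trans (hWU.trans hUV), P ∪ P', hP.union hP',
    subset_union_left, fun Q => ?_⟩
  set S : Finset X := hP.toFinset.filter (fun x => x ∈ Q) with hS
  obtain ⟨⟨n, E, hE1, hE2⟩, h2⟩ := hG (D (S : Set X))
    (Finset.mem_image.2 ⟨S, Finset.mem_powerset.2 (Finset.filter_subset _ _), rfl⟩)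
  refine ⟨D (S : Set X), fun p hp => ?_, ⟨n, E, fun i => Or.inr (hE1 i),
    fun y hy => hE2 y (hiW hy)⟩, fun y hy y' hy' => h2 y (hiW hy) y' (hiW hy')⟩
  rw [hD (S : Set X) p hp]
  simp [hS, hp]

/-- Fusion: every nonempty open set contains a nonempty countable intersection of open sets on
which every `T C` is constant. -/
theorem fusion [CompactSpace X] [T2Space X] [TotallyDisconnectedSpace X] [BaireSpace Y]
    [RegularSpace Y] [CompactSpace Y]
    (hconn : ∀ V : Set Y, IsOpen V → V.Nonempty →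
      ∃ U ⊆ V, IsOpen U ∧ U.Nonempty ∧ IsPreconnected U)
    (T : Clopens X → Y → ℝ) (hT : ∀ C, Continuous (T C))
    (hHit : ∀ C (ε : ℝ), 0 < ε → ∀ y, ∃ n, ∃ E : Fin n → X, Hit T C ε y E)
    {V : Set Y} (hV : IsOpen V) (hVn : V.Nonempty) :
    ∃ U : ℕ → Set Y, (∀ k, IsOpen (U k)) ∧ (∀ k, U k ⊆ V) ∧ (⋂ k, U k).Nonempty ∧
      ∀ C, ∀ y ∈ ⋂ k, U k, ∀ y' ∈ ⋂ k, U k, T C y = T C y' := by
  classical
  -- states of the recursion
  let St := {s : Set Y × Set X // IsOpen s.1 ∧ s.1.Nonempty ∧ s.2.Finite}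
  have hstep : ∀ (k : ℕ) (s : St), ∃ s' : St, closure s'.1.1 ⊆ s.1.1 ∧ s.1.2 ⊆ s'.1.2 ∧
      ∀ Q : Set X, ∃ C : Clopens X, (∀ p ∈ s.1.2, (p ∈ C ↔ p ∈ Q)) ∧
      (∃ n, ∃ E : Fin n → X, (∀ i, E i ∈ s'.1.2) ∧ ∀ y ∈ s'.1.1, Hit T C (1 / ((k : ℝ) + 1)) y E) ∧
      ∀ y ∈ s'.1.1, ∀ y' ∈ s'.1.1, |T C y - T C y'| ≤ 1 / ((k : ℝ) + 1) := by
    rintro k ⟨⟨U, P⟩, hUo, hUn, hP⟩
    obtain ⟨U', hU'o, hU'n, hcl, P', hP', hPP', h⟩ := fusion_step hconn T hT hHit
      (ε := 1 / ((k : ℝ) + 1)) Nat.one_div_pos_of_nat hUo hUn hP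
    exact ⟨⟨(U', P'), hU'o, hU'n, hP'⟩, hcl, hPP', h⟩
  choose nxt hn1 hn2 hn3 using hstep
  let s : ℕ → St := fun k => Nat.rec ⟨(V, ∅), hV, hVn, finite_empty⟩ (fun k s => nxt k s) k
  have hs : ∀ k, s (k + 1) = nxt k (s k) := fun k => rfl
  set U : ℕ → Set Y := fun k => (s k).1.1 with hU
  set P : ℕ → Set X := fun k => (s k).1.2 with hP
  have hUo : ∀ k, IsOpen (U k) := fun k => (s k).2.1
  have hUn : ∀ k, (U k).Nonempty := fun k => (s k).2.2.1
  have hcl : ∀ k, closure (U (k + 1)) ⊆ U k := fun k => by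
    have := hn1 k (s k)
    rw [← hs] at this
    exact this
  have hPm : Monotone P := monotone_nat_of_le_succ fun k => by
    have := hn2 k (s k)
    rw [← hs] at this
    exact this
  have h3 : ∀ k, ∀ Q : Set X, ∃ C : Clopens X, (∀ p ∈ P k, (p ∈ C ↔ p ∈ Q)) ∧
      (∃ n, ∃ E : Fin n → X, (∀ i, E i ∈ P (k + 1)) ∧
        ∀ y ∈ U (k + 1), Hit T C (1 / ((k : ℝ) + 1)) y E) ∧
      ∀ y ∈ U (k + 1), ∀ y' ∈ U (k + 1), |T C y - T C y'| ≤ 1 / ((k : ℝ) + 1) := fun k => by
    have := hn3 k (s k)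
    rw [← hs] at this
    exact this
  have hUanti : ∀ k, U (k + 1) ⊆ U k := fun k => subset_closure.trans (hcl k)
  have hU0 : ∀ k, U k ⊆ V := by
    intro k
    induction k with
    | zero => exact Subset.rfl
    | succ k ih => exact (hUanti k).trans ih
  refine ⟨U, hUo, hU0, ?_, ?_⟩
  · have hne : (⋂ k, closure (U k)).Nonempty := by
      apply IsCompact.nonempty_iInter_of_sequence_nonempty_isCompact_isClosed
      · intro k
        exact closure_mono (hUanti k)
      · intro k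
        exact (hUn k).closure
      · exact isClosed_closure.isCompact
      · intro k
        exact isClosed_closure
    obtain ⟨y, hy⟩ := hne
    refine ⟨y, mem_iInter.2 fun k => hcl k (mem_iInter.1 hy (k + 1))⟩
  · intro C y hy y' hy'
    rw [mem_iInter] at hy hy'
    have key : ∀ ε : ℝ, 0 < ε → |T C y - T C y'| ≤ 5 * ε := by
      intro ε hε
      obtain ⟨n₁, E₁, hE₁⟩ := hHit C ε hε y
      obtain ⟨n₂, E₂, hE₂⟩ := hHit C ε hε y'
      set F : Set X := range E₁ ∪ range E₂ with hF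
      have hFfin : F.Finite := (finite_range E₁).union (finite_range E₂)
      have hev : ∀ᶠ k in Filter.atTop, ∀ x ∈ F, ((∃ j, x ∈ P j) → x ∈ P k) := by
        rw [Filter.eventually_all_finite hFfin]
        intro x _
        by_cases hx : ∃ j, x ∈ P j
        · obtain ⟨j, hj⟩ := hx
          filter_upwards [Filter.eventually_ge_atTop j] with k hk _
          exact hPm hk hj
        · exact Filter.Eventually.of_forall fun k h => absurd h hx
      have hev2 : ∀ᶠ k : ℕ in Filter.atTop, 1 / ((k : ℝ) + 1) < ε :=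
        tendsto_one_div_add_atTop_nhds_zero_nat.eventually (gt_mem_nhds hε)
      obtain ⟨k, hk1, hk2⟩ := (hev.and hev2).exists
      obtain ⟨D, hD1, ⟨n, E, hE1, hE2⟩, hD3⟩ := h3 k {x | x ∈ C}
      have hcommon : ∀ x ∈ F, ∀ i, x = E i → (x ∈ C ↔ x ∈ D) := by
        intro x hx i hxi
        have h4 : x ∈ P k := hk1 x hx ⟨k + 1, by rw [hxi]; exact hE1 i⟩
        exact (hD1 x h4).symm
      have hcomp : ∀ (n' : ℕ) (E' : Fin n' → X) (z : Y), (∀ i, E' i ∈ F) → z ∈ U (k + 1) →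
          Hit T C ε z E' → |T C z - T D z| ≤ 2 * ε := by
        intro n' E' z hE'F hz hH
        obtain ⟨D', hD'1, hD'2⟩ := exists_clopen_glue E' E C D
          (fun i j hij => hcommon (E' i) (hE'F i) j hij)
        have h5 := hH D' hD'1
        have h6 := hE2 z hz D' hD'2
        have h7 := abs_sub_le (T C z) (T D' z) (T D z)
        rw [abs_sub_comm (T C z) (T D' z)] at h7
        linarith
      have h8 := hcomp n₁ E₁ y (fun i => Or.inl ⟨i, rfl⟩) (hy (k + 1)) hE₁
      have h9 := hcomp n₂ E₂ y' (fun i => Or.inr ⟨i, rfl⟩) (hy' (k + 1)) hE₂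
      have h10 := hD3 y (hy (k + 1)) y' (hy' (k + 1))
      have h11 := abs_sub_le (T C y) (T D y) (T C y')
      have h12 := abs_sub_le (T D y) (T D y') (T C y')
      rw [abs_sub_comm (T D y') (T C y')] at h12
      linarith
    have h0 : |T C y - T C y'| ≤ 0 := by
      refine le_of_forall_pos_le_add fun δ hδ => ?_
      have := key (δ / 5) (by positivity)
      linarith
    exact sub_eq_zero.1 (abs_nonpos_iff.1 h0)

end General

section Cube

lemma locallyConnected_unitInterval : LocallyConnectedSpace unitInterval := by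
  refine locallyConnectedSpace_of_connected_bases (fun x r => Metric.ball x r) (fun _ r => 0 < r)
    (fun x => Metric.nhds_basis_ball) (fun x r _ => ?_)
  apply Set.OrdConnected.isPreconnected
  constructor
  intro a ha b hb c hc
  rw [Metric.mem_ball, Subtype.dist_eq, Real.dist_eq, abs_lt] at ha hb ⊢
  have h1 : (a : ℝ) ≤ c := hc.1
  have h2 : (c : ℝ) ≤ b := hc.2
  constructor
  · linarith [ha.1]
  · linarith [hb.2]

lemma hconn_cube {κ : Type} : ∀ V : Set (κ → unitInterval), IsOpen V → V.Nonempty →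
    ∃ U ⊆ V, IsOpen U ∧ U.Nonempty ∧ IsPreconnected U := by
  intro V hV hVn
  have := locallyConnected_unitInterval
  have : LocallyConnectedSpace (κ → unitInterval) := Pi.locallyConnectedSpace
  obtain ⟨y, hy⟩ := hVn
  refine ⟨connectedComponentIn V y, connectedComponentIn_subset V y, hV.connectedComponentIn,
    ⟨y, mem_connectedComponentIn hy⟩, isPreconnected_connectedComponentIn⟩

variable {X : Type} [TopologicalSpace X] [CompactSpace X] [T2Space X] [TotallyDisconnectedSpace X]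
  {κ : Type}

lemma exists_fiber (T : Clopens X → (κ → unitInterval) → ℝ) (hT : ∀ C, Continuous (T C))
    (hHit : ∀ C (ε : ℝ), 0 < ε → ∀ y, ∃ n, ∃ E : Fin n → X, Hit T C ε y E)
    {V : Set (κ → unitInterval)} (hV : IsOpen V) (hVn : V.Nonempty) :
    ∃ y₀ ∈ V, ∃ A : Set κ, A.Countable ∧ ∀ C, ∀ y y' : κ → unitInterval,
      (∀ a ∈ A, y a = y₀ a) → (∀ a ∈ A, y' a = y₀ a) → T C y = T C y' := by
  obtain ⟨U, hUo, hUV, ⟨y₀, hy₀⟩, hconst⟩ := fusion hconn_cube T hT hHit hV hVn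
  have h1 : ∀ k, ∃ I : Finset κ, ∀ y : κ → unitInterval, (∀ a ∈ I, y a = y₀ a) → y ∈ U k := by
    intro k
    obtain ⟨I, u, hu, hsub⟩ := isOpen_pi_iff.1 (hUo k) y₀ (mem_iInter.1 hy₀ k)
    refine ⟨I, fun y hy => hsub ?_⟩
    intro a ha
    rw [hy a ha]
    exact (hu a ha).2
  choose I hI using h1
  refine ⟨y₀, hUV 0 (mem_iInter.1 hy₀ 0), ⋃ k, (I k : Set κ),
    countable_iUnion fun k => (I k).countable_toSet, fun C y y' hy hy' => ?_⟩
  apply hconst C
  · exact mem_iInter.2 fun k => hI k y fun a ha => hy a (mem_iUnion.2 ⟨k, ha⟩)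
  · exact mem_iInter.2 fun k => hI k y' fun a ha => hy' a (mem_iUnion.2 ⟨k, ha⟩)

/-- the box given by finitely many constraints -/
def box (s : Finset (κ × Set unitInterval)) : Set (κ → unitInterval) := {y | ∀ p ∈ s, y p.1 ∈ p.2}

lemma isOpen_box (s : Finset (κ × Set unitInterval)) (hs : ∀ p ∈ s, IsOpen p.2) :
    IsOpen (box s) := by
  have : box s = ⋂ p ∈ s, {y : κ → unitInterval | y p.1 ∈ p.2} := by
    ext y; simp [box]
  rw [this]
  exact isOpen_biInter_finset fun p hp => (hs p hp).preimage (continuous_apply p.1)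

lemma exists_box {O : Set (κ → unitInterval)} (hO : IsOpen O) {y : κ → unitInterval} (hy : y ∈ O) :
    ∃ s : Finset (κ × Set unitInterval), (∀ p ∈ s, p.2 ∈ countableBasis unitInterval) ∧
      y ∈ box s ∧ box s ⊆ O := by
  classical
  obtain ⟨I, u, hu, hsub⟩ := isOpen_pi_iff.1 hO y hy
  have h1 : ∀ a ∈ I, ∃ v ∈ countableBasis unitInterval, y a ∈ v ∧ v ⊆ u a := fun a ha =>
    (isBasis_countableBasis unitInterval).exists_subset_of_mem_open (hu a ha).2 (hu a ha).1
  choose! v hv1 hv2 hv3 using h1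
  refine ⟨I.image fun a => (a, v a), ?_, ?_, ?_⟩
  · intro p hp
    obtain ⟨a, ha, rfl⟩ := Finset.mem_image.1 hp
    exact hv1 a ha
  · intro p hp
    obtain ⟨a, ha, rfl⟩ := Finset.mem_image.1 hp
    exact hv2 a ha
  · intro z hz
    apply hsub
    intro a ha
    exact hv3 a ha (hz (a, v a) (Finset.mem_image_of_mem _ ha))

lemma countable_boxes (A : Set κ) (hA : A.Countable) :
    {s : Finset (κ × Set unitInterval) | ∀ p ∈ s, p.1 ∈ A ∧
      p.2 ∈ countableBasis unitInterval}.Countable := by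
  have h1 : (A ×ˢ countableBasis unitInterval).Countable :=
    hA.prod (countable_countableBasis unitInterval)
  have h2 := (Set.countable_ofPred_finite_subset h1).preimage
    (Finset.coe_injective (α := κ × Set unitInterval))
  refine h2.mono ?_
  intro s hs
  refine ⟨s.finite_toSet, ?_⟩
  intro p hp
  exact hs p hp

/-- Every pointwise continuous map from the clopen sets of `X` to `C(I^κ)` takes its values among
functions depending on a fixed countable set of coordinates. -/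
theorem exists_countable_support (T : Clopens X → (κ → unitInterval) → ℝ)
    (hT : ∀ C, Continuous (T C))
    (hHit : ∀ C (ε : ℝ), 0 < ε → ∀ y, ∃ n, ∃ E : Fin n → X, Hit T C ε y E) :
    ∃ A : Set κ, A.Countable ∧ ∀ C, ∀ y y' : κ → unitInterval, (∀ a ∈ A, y a = y' a) →
      T C y = T C y' := by
  classical
  have h1 : ∀ s : Finset (κ × Set unitInterval), ∃ (y₀ : κ → unitInterval) (A : Set κ),
      A.Countable ∧ ((∀ p ∈ s, IsOpen p.2) → (box s).Nonempty → (y₀ ∈ box s ∧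
        ∀ C, ∀ y y' : κ → unitInterval,
          (∀ a ∈ A, y a = y₀ a) → (∀ a ∈ A, y' a = y₀ a) → T C y = T C y')) := by
    intro s
    by_cases hs : (∀ p ∈ s, IsOpen p.2) ∧ (box s).Nonempty
    · obtain ⟨y₀, hy₀, A, hA, h⟩ := exists_fiber T hT hHit (isOpen_box s hs.1) hs.2
      exact ⟨y₀, A, hA, fun _ _ => ⟨hy₀, h⟩⟩
    · exact ⟨fun _ => 0, ∅, countable_empty, fun h1 h2 => absurd ⟨h1, h2⟩ hs⟩
  choose yf Af hAf hyA using h1
  let S : Set κ → Set (Finset (κ × Set unitInterval)) := fun A =>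
    {s | ∀ p ∈ s, p.1 ∈ A ∧ p.2 ∈ countableBasis unitInterval}
  let Aseq : ℕ → Set κ := fun n => Nat.rec ∅ (fun _ A => A ∪ ⋃ s ∈ S A, Af s) n
  have hsucc : ∀ n, Aseq (n + 1) = Aseq n ∪ ⋃ s ∈ S (Aseq n), Af s := fun n => rfl
  have hcount : ∀ n, (Aseq n).Countable := by
    intro n
    induction n with
    | zero => exact countable_empty
    | succ n ih =>
      rw [hsucc]
      exact ih.union ((countable_boxes _ ih).biUnion fun s _ => hAf s)
  have hmono : Monotone Aseq := monotone_nat_of_le_succ fun n => by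
    rw [hsucc]; exact subset_union_left
  have hclosed : ∀ s : Finset (κ × Set unitInterval), s ∈ S (⋃ n, Aseq n) →
      Af s ⊆ ⋃ n, Aseq n := by
    intro s hs
    have : ∀ᶠ n in Filter.atTop, ∀ p ∈ s, p.1 ∈ Aseq n := by
      rw [Filter.eventually_all_finset]
      intro p hp
      obtain ⟨n, hn⟩ := mem_iUnion.1 (hs p hp).1
      filter_upwards [Filter.eventually_ge_atTop n] with m hm
      exact hmono hm hn
    obtain ⟨n, hn⟩ := this.exists
    have h2 : s ∈ S (Aseq n) := fun p hp => ⟨hn p hp, (hs p hp).2⟩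
    intro a ha
    refine mem_iUnion.2 ⟨n + 1, ?_⟩
    rw [hsucc]
    exact Or.inr (mem_iUnion₂.2 ⟨s, h2, ha⟩)
  refine ⟨⋃ n, Aseq n, countable_iUnion hcount, ?_⟩
  set A : Set κ := ⋃ n, Aseq n with hA
  intro C y y' hyy'
  by_contra hne
  have hpos : 0 < |T C y - T C y'| := abs_pos.2 (sub_ne_zero.2 hne)
  set δ := |T C y - T C y'| / 2 with hδ
  have hδpos : 0 < δ := half_pos hpos
  have hO : IsOpen {z | |T C z - T C y| < δ} :=
    isOpen_lt (((hT C).sub continuous_const).abs) continuous_const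
  have hO' : IsOpen {z | |T C z - T C y'| < δ} :=
    isOpen_lt (((hT C).sub continuous_const).abs) continuous_const
  obtain ⟨s, hs, hys, hsO⟩ := exists_box hO (y := y) (by simpa using hδpos)
  obtain ⟨s', hs', hys', hsO'⟩ := exists_box hO' (y := y') (by simpa using hδpos)
  set t : Finset (κ × Set unitInterval) := (s ∪ s').filter (fun p => p.1 ∈ A) with ht
  have hyt : y ∈ box t := by
    intro p hp
    rw [ht, Finset.mem_filter, Finset.mem_union] at hp
    rcases hp.1 with h | h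
    · exact hys p h
    · rw [hyy' p.1 hp.2]
      exact hys' p h
  have htS : t ∈ S A := by
    intro p hp
    rw [ht, Finset.mem_filter, Finset.mem_union] at hp
    refine ⟨hp.2, ?_⟩
    rcases hp.1 with h | h
    · exact hs p h
    · exact hs' p h
  have hto : ∀ p ∈ t, IsOpen p.2 := fun p hp => isOpen_of_mem_countableBasis (htS p hp).2
  obtain ⟨h3, h4⟩ := hyA t hto ⟨y, hyt⟩
  have hAt : Af t ⊆ A := hclosed t htS
  let w : κ → unitInterval := fun a => if a ∈ A then yf t a else y a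
  let w' : κ → unitInterval := fun a => if a ∈ A then yf t a else y' a
  have hw : w ∈ box s := by
    intro p hp
    by_cases hpA : p.1 ∈ A
    · have : w p.1 = yf t p.1 := by simp [w, hpA]
      rw [this]
      exact h3 p (by rw [ht, Finset.mem_filter, Finset.mem_union]; exact ⟨Or.inl hp, hpA⟩)
    · have : w p.1 = y p.1 := by simp [w, hpA]
      rw [this]
      exact hys p hp
  have hw' : w' ∈ box s' := by
    intro p hp
    by_cases hpA : p.1 ∈ A
    · have : w' p.1 = yf t p.1 := by simp [w', hpA]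
      rw [this]
      exact h3 p (by rw [ht, Finset.mem_filter, Finset.mem_union]; exact ⟨Or.inr hp, hpA⟩)
    · have : w' p.1 = y' p.1 := by simp [w', hpA]
      rw [this]
      exact hys' p hp
  have h5 : T C w = T C w' := h4 C w w'
    (fun a ha => by simp [w, hAt ha]) (fun a ha => by simp [w', hAt ha])
  have h6 : |T C w - T C y| < δ := hsO hw
  have h7 : |T C w' - T C y'| < δ := hsO' hw'
  rw [← h5] at h7
  have h8 := abs_sub_le (T C y) (T C w) (T C y')
  rw [abs_sub_comm (T C y) (T C w)] at h8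
  have h9 : |T C y - T C y'| = 2 * δ := by rw [hδ]; ring
  linarith

end Cube

end Pool.Agent.CpCube
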